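import Mathlib
import Pool.Agent.H3.BI.Stm1

/-!
# Project BD, part TRM: in a bounded domain every launch ends
-/

set_option autoImplicit false

open scoped ENNReal
open Finset

namespace Pool.Agent.H62.BD

open Pool.Agent.H3.BI

variable {d : ℕ}

theorem steps_mono_inv (D : Set (Site d)) (x : Site d) (Inv : Cf d → Prop)
    (hI : ∀ y p, Inv p → Inv (arr D y p)) {f g : Cf d → ℝ≥0∞} (h : ∀ p, Inv p → f p ≤ g p) :
    ∀ k p, Inv p → steps D x k f p ≤ steps D x k g p := by
  intro k
  induction k with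
  | zero => intro p hp; exact h p hp
  | succ k ih =>
    intro p hp
    simp only [steps]
    gcongr with e he
    exact ih _ (hI _ _ hp)

theorem steps_add (D : Set (Site d)) (x : Site d) (f g : Cf d → ℝ≥0∞) :
    ∀ k p, steps D x k (fun q => f q + g q) p = steps D x k f p + steps D x k g p := by
  intro k
  induction k with
  | zero => intro p; rfl
  | succ k ih =>
    intro p
    simp only [steps, ih, Finset.sum_add_distrib, ENNReal.add_div]

theorem steps_mul (D : Set (Site d)) (x : Site d) (c : ℝ≥0∞) (f : Cf d → ℝ≥0∞) :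
    ∀ k p, steps D x k (fun q => c * f q) p = c * steps D x k f p := by
  intro k
  induction k with
  | zero => intro p; rfl
  | succ k ih =>
    intro p
    simp only [steps, ih, ← Finset.mul_sum, mul_div_assoc]

theorem card_dir : (Fintype.card (Dir d) : ℝ≥0∞) = 2 * d := by
  simp [Dir, mul_comm]

theorem two_d_ne_zero (hd : 3 ≤ d) : (2 * d : ℝ≥0∞) ≠ 0 := by
  have : (d : ℝ≥0∞) ≠ 0 := by
    have : d ≠ 0 := by omega
    exact_mod_cast this
  simp [this]

theorem two_d_ne_top : (2 * d : ℝ≥0∞) ≠ ⊤ :=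
  ENNReal.mul_ne_top (by simp) (ENNReal.natCast_ne_top d)

theorem steps_const (hd : 3 ≤ d) (D : Set (Site d)) (x : Site d) (c : ℝ≥0∞) :
    ∀ k p, steps D x k (fun _ => c) p = c := by
  intro k
  induction k with
  | zero => intro p; rfl
  | succ k ih =>
    intro p
    simp only [steps, ih, Finset.sum_const, Finset.card_univ, nsmul_eq_mul]
    rw [card_dir, mul_comm, mul_div_assoc, ENNReal.div_self (two_d_ne_zero hd) two_d_ne_top,
      mul_one]

theorem top_mono_inv (ν : PMF ℕ) (D : Set (Site d)) (x : Site d) (Inv : Cf d → Prop)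
    (hI : ∀ y p, Inv p → Inv (arr D y p)) {f g : Cf d → ℝ≥0∞} (h : ∀ p, Inv p → f p ≤ g p)
    (p : Cf d) (hp : Inv p) : top ν D x f p ≤ top ν D x g p :=
  ENNReal.tsum_le_tsum fun k => by
    gcongr
    exact steps_mono_inv D x Inv hI h k p hp

theorem top_add (ν : PMF ℕ) (D : Set (Site d)) (x : Site d) (f g : Cf d → ℝ≥0∞) (p : Cf d) :
    top ν D x (fun q => f q + g q) p = top ν D x f p + top ν D x g p := by
  simp only [top, steps_add, mul_add]
  exact ENNReal.tsum_add

theorem top_mul (ν : PMF ℕ) (D : Set (Site d)) (x : Site d) (c : ℝ≥0∞) (f : Cf d → ℝ≥0∞)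
    (p : Cf d) : top ν D x (fun q => c * f q) p = c * top ν D x f p := by
  simp only [top, steps_mul]
  rw [← ENNReal.tsum_mul_left]
  exact tsum_congr fun k => by ring

theorem top_const (hd : 3 ≤ d) (ν : PMF ℕ) (D : Set (Site d)) (x : Site d) (c : ℝ≥0∞)
    (p : Cf d) : top ν D x (fun _ => c) p = c := by
  simp only [top, steps_const hd]
  rw [ENNReal.tsum_mul_right, ν.tsum_coe, one_mul]

/-- The functional `Ph` of the constant `1` is at most `1`. -/
theorem Ph_one_le (hd : 3 ≤ d) (ν : PMF ℕ) (D : Set (Site d)) :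
    ∀ n p, Ph ν D (fun _ => 1) n p ≤ 1 := by
  intro n
  induction n with
  | zero =>
    rintro ⟨A, L⟩
    cases L with
    | nil => simp
    | cons x L => simp
  | succ n ih =>
    rintro ⟨A, L⟩
    cases L with
    | nil => simp
    | cons x L =>
      rw [Ph_succ_cons]
      refine (top_mono_inv ν D x (fun _ => True) (fun _ _ _ => trivial) (g := fun _ => 1)
        (fun p _ => ih p) _ trivial).trans ?_
      rw [top_const hd]

/-! ## The potential -/

/-- The potential of a site. -/
noncomputable def pt (R : ℝ) (x : Site d) : ℝ := (R + 1) ^ 2 - nsq x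

theorem nsq_add_uvec (x : Site d) (i : Fin d) (b : Bool) :
    nsq (x + uvec (i, b)) = nsq x + 2 * (if b then 1 else -1) * (x i : ℝ) + 1 := by
  unfold nsq
  have h1 : ∀ j : Fin d, (((x + uvec (i, b)) j : ℤ) : ℝ) ^ 2 =
      (x j : ℝ) ^ 2 + (if j = i then 2 * (if b then 1 else -1) * (x i : ℝ) + 1 else 0) := by
    intro j
    unfold uvec
    by_cases hj : j = i
    · subst hj
      cases b <;> simp <;> ring
    · simp [hj]
  rw [Finset.sum_congr rfl fun j _ => h1 j, Finset.sum_add_distrib, Finset.sum_ite_eq']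
  simp
  ring

theorem abs_coord_le (x : Site d) (i : Fin d) : |(x i : ℝ)| ≤ nrm x := by
  rw [← Real.sqrt_sq_eq_abs]
  exact Real.sqrt_le_sqrt (Finset.single_le_sum (f := fun i => (x i : ℝ) ^ 2)
      (fun _ _ => sq_nonneg _) (Finset.mem_univ i))

theorem pt_nonneg_nbr {R : ℝ} {x : Site d} (hx : nrm x ≤ R) (e : Dir d) :
    0 ≤ pt R (x + uvec e) := by
  obtain ⟨i, b⟩ := e
  unfold pt
  rw [nsq_add_uvec]
  have h1 := abs_le.1 (abs_coord_le x i)
  have h2 := nrm_sq x
  have h3 := nrm_nonneg x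
  cases b <;> simp <;> nlinarith

theorem pt_ge_one {R : ℝ} (hR : 0 ≤ R) {x : Site d} (hx : nrm x ≤ R) : 1 ≤ pt R x := by
  unfold pt
  have h2 := nrm_sq x
  have h3 := nrm_nonneg x
  nlinarith

theorem sum_pt_nbr (R : ℝ) (x : Site d) :
    ∑ e : Dir d, pt R (x + uvec e) = 2 * d * (pt R x - 1) := by
  rw [Fintype.sum_prod_type]
  simp only [Fintype.sum_bool, pt, nsq_add_uvec]
  rw [Finset.sum_congr rfl (g := fun _ => 2 * ((R + 1) ^ 2 - nsq x - 1)) (fun i _ => by
    simp; ring)]
  simp
  ring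

theorem sum_ofReal_pt_nbr (hd : 3 ≤ d) {R : ℝ} (hR : 0 ≤ R) {x : Site d} (hx : nrm x ≤ R) :
    (∑ e : Dir d, ENNReal.ofReal (pt R (x + uvec e))) / (2 * d) =
      ENNReal.ofReal (pt R x - 1) := by
  rw [← ENNReal.ofReal_sum_of_nonneg fun e _ => pt_nonneg_nbr hx e, sum_pt_nbr,
    ENNReal.ofReal_mul (by positivity)]
  have h1 : ENNReal.ofReal (2 * (d : ℝ)) = 2 * d := by
    rw [ENNReal.ofReal_mul (by norm_num)]
    simp
  rw [h1, mul_comm, mul_div_assoc, ENNReal.div_self (two_d_ne_zero hd) two_d_ne_top, mul_one]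

/-- The potential of a configuration. -/
noncomputable def PT (R : ℝ) (p : Cf d) : ℝ≥0∞ := (p.2.map fun x => ENNReal.ofReal (pt R x)).sum

theorem PT_arr_le (R : ℝ) (D : Set (Site d)) (y : Site d) (p : Cf d) :
    PT R (arr D y p) ≤ PT R p + ENNReal.ofReal (pt R y) := by
  unfold arr
  split_ifs
  · simp only [PT, List.map_cons, List.sum_cons]
    rw [add_comm]
  · exact le_self_add
  · exact le_self_add

theorem steps_PT (hd : 3 ≤ d) {R : ℝ} (hR : 0 ≤ R) (D : Set (Site d)) {x : Site d}
    (hx : nrm x ≤ R) : ∀ k p, steps D x k (PT R) p ≤ PT R p + k * ENNReal.ofReal (pt R x - 1) := by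
  intro k
  induction k with
  | zero => intro p; simp [steps]
  | succ k ih =>
    intro p
    have h1 : (∑ e : Dir d, steps D x k (PT R) (arr D (x + uvec e) p)) ≤
        ∑ e : Dir d, ((PT R p + k * ENNReal.ofReal (pt R x - 1)) +
          ENNReal.ofReal (pt R (x + uvec e))) := by
      refine Finset.sum_le_sum fun e _ => (ih _).trans ?_
      calc PT R (arr D (x + uvec e) p) + k * ENNReal.ofReal (pt R x - 1)
          ≤ (PT R p + ENNReal.ofReal (pt R (x + uvec e))) + k * ENNReal.ofReal (pt R x - 1) := by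
            gcongr
            exact PT_arr_le _ _ _ _
        _ = _ := by ring
    have h2 : steps D x (k + 1) (PT R) p =
      (∑ e : Dir d, steps D x k (PT R) (arr D (x + uvec e) p)) / (2 * d) := rfl
    rw [h2]
    refine (ENNReal.div_le_div_right h1 _).trans ?_
    rw [Finset.sum_add_distrib, ENNReal.add_div, sum_ofReal_pt_nbr hd hR hx, Finset.sum_const,
      Finset.card_univ, nsmul_eq_mul, card_dir, mul_comm (2 * (d : ℝ≥0∞)), mul_div_assoc,
      ENNReal.div_self (two_d_ne_zero hd) two_d_ne_top, mul_one]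
    push_cast
    rw [add_mul, one_mul, add_assoc]

theorem tsum_mean (ν : PMF ℕ) (h : ConditionH ν) : ∑' k : ℕ, ν k * (k : ℝ≥0∞) = 1 := by
  have h1 : ∀ k : ℕ, ν k * (k : ℝ≥0∞) = ENNReal.ofReal ((ν k).toReal * (k : ℝ)) := by
    intro k
    rw [ENNReal.ofReal_mul ENNReal.toReal_nonneg, ENNReal.ofReal_toReal (ν.apply_ne_top k)]
    simp
  rw [tsum_congr h1, ← ENNReal.ofReal_tsum_of_nonneg (fun k => by positivity) h.mean.summable,
    h.mean.tsum_eq]
  simp

theorem top_PT (hd : 3 ≤ d) (ν : PMF ℕ) (hν : ConditionH ν) {R : ℝ} (hR : 0 ≤ R)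
    (D : Set (Site d)) {x : Site d} (hx : nrm x ≤ R) (p : Cf d) :
    top ν D x (PT R) p + 1 ≤ PT R p + ENNReal.ofReal (pt R x) := by
  have h1 : top ν D x (PT R) p ≤ PT R p + ENNReal.ofReal (pt R x - 1) := by
    calc top ν D x (PT R) p
        ≤ ∑' k : ℕ, (ν k * PT R p + ν k * k * ENNReal.ofReal (pt R x - 1)) := by
          refine ENNReal.tsum_le_tsum fun k => ?_
          rw [mul_assoc, ← mul_add]
          gcongr
          exact steps_PT hd hR D hx k p
      _ = PT R p + ENNReal.ofReal (pt R x - 1) := by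
          rw [ENNReal.tsum_add, ENNReal.tsum_mul_right, ENNReal.tsum_mul_right, ν.tsum_coe,
            tsum_mean ν hν, one_mul, one_mul]
  calc top ν D x (PT R) p + 1 ≤ (PT R p + ENNReal.ofReal (pt R x - 1)) + 1 := by gcongr
    _ = PT R p + (ENNReal.ofReal (pt R x - 1) + ENNReal.ofReal 1) := by
        rw [add_assoc, ENNReal.ofReal_one]
    _ = PT R p + ENNReal.ofReal (pt R x) := by
        rw [← ENNReal.ofReal_add (by linarith [pt_ge_one hR hx]) (by norm_num)]
        congr 2
        ring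

/-- The number of branchings has mean at most the potential. -/
theorem key (hd : 3 ≤ d) (ν : PMF ℕ) (hν : ConditionH ν) {R : ℝ} (hR : 0 ≤ R) :
    ∀ (n : ℕ) (A : Finset (Site d)) (L : List (Site d)), (∀ x ∈ L, x ∈ Bl d R) →
      (n : ℝ≥0∞) ≤ n * Ph ν (Bl d R) (fun _ => 1) n (A, L) + PT R (A, L) := by
  intro n
  induction n with
  | zero => intro A L _; simp
  | succ n ih =>
    intro A L hL
    cases L with
    | nil => simp
    | cons x L =>
      have hx : nrm x ≤ R := hL x (by simp)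
      rw [Ph_succ_cons]
      have h1 : (n : ℝ≥0∞) ≤ n * top ν (Bl d R) x (Ph ν (Bl d R) (fun _ => 1) n) (A, L) +
          top ν (Bl d R) x (PT R) (A, L) := by
        rw [← top_mul, ← top_add]
        calc (n : ℝ≥0∞) = top ν (Bl d R) x (fun _ => (n : ℝ≥0∞)) (A, L) :=
              (top_const hd ν _ _ _ _).symm
          _ ≤ _ := by
              refine top_mono_inv ν _ x (fun p => ∀ y ∈ p.2, y ∈ Bl d R) ?_ ?_ (A, L) ?_
              · intro y p hp
                unfold arr
                split_ifs with h1 h2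
                · intro z hz
                  rcases List.mem_cons.1 hz with rfl | hz
                  · exact h2
                  · exact hp z hz
                · exact hp
                · exact hp
              · rintro ⟨B, M⟩ hp
                exact ih B M hp
              · intro y hy
                exact hL y (List.mem_cons_of_mem _ hy)
      calc ((n + 1 : ℕ) : ℝ≥0∞) = n + 1 := by push_cast; rfl
        _ ≤ (n * top ν (Bl d R) x (Ph ν (Bl d R) (fun _ => 1) n) (A, L) +
            top ν (Bl d R) x (PT R) (A, L)) + 1 := by gcongr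
        _ = n * top ν (Bl d R) x (Ph ν (Bl d R) (fun _ => 1) n) (A, L) +
            (top ν (Bl d R) x (PT R) (A, L) + 1) := by rw [add_assoc]
        _ ≤ ((n + 1 : ℕ) : ℝ≥0∞) * top ν (Bl d R) x (Ph ν (Bl d R) (fun _ => 1) n) (A, L) +
            PT R (A, x :: L) := by
          gcongr
          · simp
          · refine (top_PT hd ν hν hR (Bl d R) hx (A, L)).trans ?_
            simp only [PT, List.map_cons, List.sum_cons]
            rw [add_comm]

theorem t_TRM : S_TRM := by
  intro d ν R A hd hν hR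
  apply le_antisymm
  · exact iSup_le fun n => Ph_one_le hd ν _ n _
  · have h0 : ∀ x ∈ [(0 : Site d)], x ∈ Bl d R := by
      intro x hx
      rw [List.mem_singleton] at hx
      subst hx
      have : nrm (0 : Site d) = 0 := by simp [nrm, nsq]
      change nrm (0 : Site d) ≤ R
      rw [this]; exact hR
    set c : ℝ≥0∞ := PT R (A, [(0 : Site d)]) with hc
    have hctop : c ≠ ⊤ := by simp [hc, PT]
    have h1 : ∀ n : ℕ, 1 ≤ KD ν (Bl d R) (fun _ => 1) A + c / ((n + 1 : ℕ) : ℝ≥0∞) := by
      intro n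
      have h2 := key hd ν hν hR (n + 1) A [0] h0
      have h3 : Ph ν (Bl d R) (fun _ => 1) (n + 1) (A, [0]) ≤ KD ν (Bl d R) (fun _ => 1) A :=
        le_iSup (fun n => Ph ν (Bl d R) (fun _ => 1) n (A, [0])) (n + 1)
      have hn0 : ((n + 1 : ℕ) : ℝ≥0∞) ≠ 0 := by
        exact_mod_cast Nat.succ_ne_zero n
      have hnt : ((n + 1 : ℕ) : ℝ≥0∞) ≠ ⊤ := ENNReal.natCast_ne_top _
      calc (1 : ℝ≥0∞) = ((n + 1 : ℕ) : ℝ≥0∞) / ((n + 1 : ℕ) : ℝ≥0∞) :=
            (ENNReal.div_self hn0 hnt).symm
        _ ≤ (((n + 1 : ℕ) : ℝ≥0∞) * Ph ν (Bl d R) (fun _ => 1) (n + 1) (A, [0]) + c) /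
            ((n + 1 : ℕ) : ℝ≥0∞) := by gcongr
        _ = Ph ν (Bl d R) (fun _ => 1) (n + 1) (A, [0]) + c / ((n + 1 : ℕ) : ℝ≥0∞) := by
            rw [ENNReal.add_div, mul_comm, mul_div_assoc, ENNReal.div_self hn0 hnt, mul_one]
        _ ≤ _ := by gcongr
    have h4 : Filter.Tendsto (fun n : ℕ => KD ν (Bl d R) (fun _ => 1) A +
        c / ((n + 1 : ℕ) : ℝ≥0∞)) Filter.atTop (nhds (KD ν (Bl d R) (fun _ => 1) A + 0)) := by
      refine Filter.Tendsto.const_add _ ?_
      have h5 : Filter.Tendsto (fun n : ℕ => c / (n : ℝ≥0∞)) Filter.atTop (nhds 0) := by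
        simp only [div_eq_mul_inv]
        have := ENNReal.Tendsto.const_mul (a := c) ENNReal.tendsto_inv_nat_nhds_zero
          (Or.inr hctop)
        simpa using this
      exact h5.comp (Filter.tendsto_add_atTop_nat 1)
    have h6 := ge_of_tendsto' h4 h1
    simpa using h6

end Pool.Agent.H62.BD
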